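import Mathlib

/-!
King and rook against king on a board with a west edge and a south edge: the rules, the notion of a
forced mate, monotonicity in the size of the board and the symmetry in the diagonal.
-/

namespace Pool.Agent.Q136.KRK

/-- A square: (file, rank), both counted from 1. -/
abbrev Sq := ℕ × ℕ

/-- Two different squares that touch each other: one king step apart. -/
def Adj (a b : Sq) : Prop :=
  a ≠ b ∧ a.1 ≤ b.1 + 1 ∧ b.1 ≤ a.1 + 1 ∧ a.2 ≤ b.2 + 1 ∧ b.2 ≤ a.2 + 1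

/-- `c` lies strictly between `a` and `b` on a common file or on a common rank. -/
def Betw (a c b : Sq) : Prop :=
  (a.1 = b.1 ∧ c.1 = a.1 ∧ ((a.2 < c.2 ∧ c.2 < b.2) ∨ (b.2 < c.2 ∧ c.2 < a.2))) ∨
  (a.2 = b.2 ∧ c.2 = a.2 ∧ ((a.1 < c.1 ∧ c.1 < b.1) ∨ (b.1 < c.1 ∧ c.1 < a.1)))

/-- A position: the squares of the White king, the White rook and the Black king. -/
structure Pos where
  wk : Sq
  wr : Sq
  bk : Sq

/-- A board with `files` files and `ranks` ranks; each of the two numbers may be infinite. -/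
structure Board where
  files : ℕ∞
  ranks : ℕ∞

/-- The square `s` belongs to the board. -/
def Board.On (B : Board) (s : Sq) : Prop :=
  1 ≤ s.1 ∧ 1 ≤ s.2 ∧ (s.1 : ℕ∞) ≤ B.files ∧ (s.2 : ℕ∞) ≤ B.ranks

/-- The rook on `wr` attacks the square `s` (only the White king on `wk` can be in the way). -/
def RookAtt (wk wr s : Sq) : Prop :=
  s ≠ wr ∧ (s.1 = wr.1 ∨ s.2 = wr.2) ∧ ¬ Betw wr wk s

/-- A legal move of White leads from `p` to `q`: a king move to a square of the board that is free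
and not next to the Black king, or a rook move along a file or rank over free squares. -/
def WMove (B : Board) (p q : Pos) : Prop :=
  q.bk = p.bk ∧
  ((q.wr = p.wr ∧ Adj p.wk q.wk ∧ B.On q.wk ∧ q.wk ≠ p.wr ∧ q.wk ≠ p.bk ∧ ¬ Adj q.wk p.bk) ∨
   (q.wk = p.wk ∧ q.wr ≠ p.wr ∧ (q.wr.1 = p.wr.1 ∨ q.wr.2 = p.wr.2) ∧ B.On q.wr ∧
      q.wr ≠ p.wk ∧ q.wr ≠ p.bk ∧ ¬ Betw p.wr p.wk q.wr ∧ ¬ Betw p.wr p.bk q.wr))

/-- The Black king, to move in the position `q`, may go to `s`: a king step to a square of the board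
that is not attacked (the rook may be captured if it is not protected), or a king step off the
board across the north edge or the east edge (an exit). -/
def BMove (B : Board) (q : Pos) (s : Sq) : Prop :=
  Adj q.bk s ∧
  ((B.On s ∧ s ≠ q.wk ∧ ¬ Adj q.wk s ∧ ¬ RookAtt q.wk q.wr s) ∨ (1 ≤ s.1 ∧ 1 ≤ s.2 ∧ ¬ B.On s))

/-- Black, to move, is checkmated. -/
def Mate (B : Board) (q : Pos) : Prop :=
  RookAtt q.wk q.wr q.bk ∧ ∀ s, ¬ BMove B q s

/-- White, to move, can force checkmate within `N` moves. (Stalemate, an exit and the capture of the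
rook are not wins.) -/
def WinsIn (B : Board) : ℕ → Pos → Prop
  | 0, _ => False
  | N + 1, p => ∃ q, WMove B p q ∧
      (Mate B q ∨ ((∃ s, BMove B q s) ∧
        ∀ s, BMove B q s → B.On s ∧ s ≠ q.wr ∧ WinsIn B N ⟨q.wk, q.wr, s⟩))

/-- White, to move, can force checkmate. -/
inductive Wins (B : Board) : Pos → Prop
  | mate {p q : Pos} : WMove B p q → Mate B q → Wins B p
  | step {p q : Pos} : WMove B p q → (∃ s, BMove B q s) →
      (∀ s, BMove B q s → B.On s ∧ s ≠ q.wr) →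
      (∀ s, BMove B q s → Wins B ⟨q.wk, q.wr, s⟩) → Wins B p

/-- WK a1, WR b2, BK c3. -/
def start : Pos := ⟨(1, 1), (2, 2), (3, 3)⟩

theorem WinsIn.mono_succ {B : Board} : ∀ {N : ℕ} {p : Pos}, WinsIn B N p → WinsIn B (N + 1) p
  | 0, _, h => h.elim
  | N + 1, p, ⟨q, h1, h2⟩ => by
      refine ⟨q, h1, ?_⟩
      rcases h2 with h2 | ⟨h3, h4⟩
      · exact Or.inl h2
      · refine Or.inr ⟨h3, fun s hs => ?_⟩
        obtain ⟨a, b, c⟩ := h4 s hs
        exact ⟨a, b, WinsIn.mono_succ c⟩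

theorem WinsIn.mono {B : Board} {N N' : ℕ} (h : N ≤ N') {p : Pos} (hp : WinsIn B N p) :
    WinsIn B N' p := by
  induction h with
  | refl => exact hp
  | step _ ih => exact WinsIn.mono_succ ih

theorem wins_of_winsIn {B : Board} : ∀ {N : ℕ} {p : Pos}, WinsIn B N p → Wins B p
  | 0, _, h => h.elim
  | N + 1, p, ⟨q, h1, h2⟩ => by
      rcases h2 with h2 | ⟨h3, h4⟩
      · exact Wins.mate h1 h2
      · exact Wins.step h1 h3 (fun s hs => ⟨(h4 s hs).1, (h4 s hs).2.1⟩)
          (fun s hs => wins_of_winsIn (h4 s hs).2.2)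

theorem adj_finite (a : Sq) : {s : Sq | Adj a s}.Finite := by
  refine Set.Finite.subset (Set.finite_Iic ((a.1 + 1, a.2 + 1) : ℕ × ℕ)) ?_
  intro s hs
  obtain ⟨_, h1, h2, h3, h4⟩ := hs
  exact ⟨h2, h4⟩

theorem winsIn_of_wins {B : Board} {p : Pos} (h : Wins B p) : ∃ N, WinsIn B N p := by
  induction h with
  | mate h1 h2 => exact ⟨1, _, h1, Or.inl h2⟩
  | @step p q h1 h3 h4 _ ih =>
      have hfin : {s : Sq | BMove B q s}.Finite :=
        (adj_finite q.bk).subset (fun s hs => hs.1)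
      choose! f hf using ih
      obtain ⟨N, hN⟩ : ∃ N, ∀ s ∈ {s : Sq | BMove B q s}, f s ≤ N := by
        have := (hfin.image f).bddAbove
        obtain ⟨N, hN⟩ := this
        exact ⟨N, fun s hs => hN (Set.mem_image_of_mem f hs)⟩
      refine ⟨N + 1, q, h1, Or.inr ⟨h3, fun s hs => ⟨(h4 s hs).1, (h4 s hs).2, ?_⟩⟩⟩
      exact WinsIn.mono (hN s hs) (hf s hs)

theorem wins_iff {B : Board} {p : Pos} : Wins B p ↔ ∃ N, WinsIn B N p :=
  ⟨winsIn_of_wins, fun ⟨_, h⟩ => wins_of_winsIn h⟩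

/-! ### Larger boards are better for White -/

theorem On.mono {B B' : Board} (hf : B.files ≤ B'.files) (hr : B.ranks ≤ B'.ranks) {s : Sq}
    (h : B.On s) : B'.On s :=
  ⟨h.1, h.2.1, h.2.2.1.trans hf, h.2.2.2.trans hr⟩

theorem WMove.mono {B B' : Board} (hf : B.files ≤ B'.files) (hr : B.ranks ≤ B'.ranks) {p q : Pos}
    (h : WMove B p q) : WMove B' p q := by
  obtain ⟨h0, h1 | h1⟩ := h
  · exact ⟨h0, Or.inl ⟨h1.1, h1.2.1, On.mono hf hr h1.2.2.1, h1.2.2.2⟩⟩
  · exact ⟨h0, Or.inr ⟨h1.1, h1.2.1, h1.2.2.1, On.mono hf hr h1.2.2.2.1, h1.2.2.2.2⟩⟩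

theorem BMove.anti {B B' : Board} (hf : B.files ≤ B'.files) (hr : B.ranks ≤ B'.ranks) {q : Pos}
    {s : Sq} (h : BMove B' q s) : BMove B q s := by
  obtain ⟨h0, h1 | h1⟩ := h
  · by_cases hs : B.On s
    · exact ⟨h0, Or.inl ⟨hs, h1.2⟩⟩
    · exact ⟨h0, Or.inr ⟨h1.1.1, h1.1.2.1, hs⟩⟩
  · exact ⟨h0, Or.inr ⟨h1.1, h1.2.1, fun hs => h1.2.2 (On.mono hf hr hs)⟩⟩

theorem WinsIn.board_mono {B B' : Board} (hf : B.files ≤ B'.files) (hr : B.ranks ≤ B'.ranks) :
    ∀ {N : ℕ} {p : Pos}, WinsIn B N p → WinsIn B' N p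
  | 0, _, h => h.elim
  | N + 1, p, ⟨q, h1, h2⟩ => by
      refine ⟨q, h1.mono hf hr, ?_⟩
      rcases h2 with h2 | ⟨⟨t, ht⟩, h4⟩
      · exact Or.inl ⟨h2.1, fun s hs => h2.2 s (hs.anti hf hr)⟩
      · refine Or.inr ⟨⟨t, ht.1, ?_⟩, fun s hs => ?_⟩
        · rcases ht.2 with h | h
          · exact Or.inl ⟨On.mono hf hr h.1, h.2⟩
          · exact absurd (h4 t ht).1 h.2.2
        · obtain ⟨a, b, c⟩ := h4 s (hs.anti hf hr)
          exact ⟨On.mono hf hr a, b, WinsIn.board_mono hf hr c⟩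

/-! ### The symmetry in the diagonal -/

/-- The mirror image of a position. -/
def Pos.flip (p : Pos) : Pos := ⟨p.wk.swap, p.wr.swap, p.bk.swap⟩

/-- The mirror image of a board. -/
def Board.flip (B : Board) : Board := ⟨B.ranks, B.files⟩

theorem swap_ne {a b : Sq} : a.swap ≠ b.swap ↔ a ≠ b := by
  simp

theorem adj_swap {a b : Sq} : Adj a.swap b.swap ↔ Adj a b := by
  unfold Adj
  simp only [Prod.fst_swap, Prod.snd_swap, swap_ne]
  tauto

theorem betw_swap {a b c : Sq} : Betw a.swap b.swap c.swap ↔ Betw a b c := by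
  unfold Betw
  simp only [Prod.fst_swap, Prod.snd_swap]
  tauto

theorem on_flip {B : Board} {s : Sq} : B.flip.On s.swap ↔ B.On s := by
  unfold Board.On Board.flip
  simp only [Prod.fst_swap, Prod.snd_swap]
  tauto

theorem rookAtt_swap {a b c : Sq} : RookAtt a.swap b.swap c.swap ↔ RookAtt a b c := by
  unfold RookAtt
  rw [betw_swap, swap_ne]
  simp only [Prod.fst_swap, Prod.snd_swap]
  tauto

theorem wmove_flip {B : Board} {p q : Pos} : WMove B.flip p.flip q.flip ↔ WMove B p q := by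
  unfold WMove Pos.flip
  simp only [adj_swap, betw_swap, on_flip, swap_ne, Prod.swap_inj, Prod.fst_swap, Prod.snd_swap]
  tauto

theorem bmove_flip {B : Board} {q : Pos} {s : Sq} :
    BMove B.flip q.flip s.swap ↔ BMove B q s := by
  unfold BMove Pos.flip
  simp only [adj_swap, rookAtt_swap, on_flip, swap_ne, Prod.fst_swap, Prod.snd_swap]
  tauto

theorem mate_flip {B : Board} {q : Pos} : Mate B.flip q.flip ↔ Mate B q := by
  unfold Mate
  constructor
  · rintro ⟨h1, h2⟩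
    refine ⟨rookAtt_swap.1 h1, fun s hs => h2 s.swap (bmove_flip.2 hs)⟩
  · rintro ⟨h1, h2⟩
    refine ⟨rookAtt_swap.2 h1, fun s hs => h2 s.swap ?_⟩
    rw [← bmove_flip]
    simpa using hs

theorem WinsIn.flip {B : Board} : ∀ {N : ℕ} {p : Pos}, WinsIn B N p → WinsIn B.flip N p.flip
  | 0, _, h => h.elim
  | N + 1, p, ⟨q, h1, h2⟩ => by
      refine ⟨q.flip, wmove_flip.2 h1, ?_⟩
      rcases h2 with h2 | ⟨⟨t, ht⟩, h4⟩
      · exact Or.inl (mate_flip.2 h2)
      · refine Or.inr ⟨⟨t.swap, bmove_flip.2 ht⟩, fun s hs => ?_⟩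
        have hs' : BMove B q s.swap := by
          rw [← bmove_flip]
          simpa using hs
        obtain ⟨a, b, c⟩ := h4 s.swap hs'
        refine ⟨?_, ?_, ?_⟩
        · have := on_flip.2 a
          simpa using this
        · intro h
          apply b
          rw [h]
          simp [Pos.flip]
        · have := WinsIn.flip c
          simpa [Pos.flip] using this

end Pool.Agent.Q136.KRK
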