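import Pool.Agent.Q136.KRK.Data

/-!
Part 2 of the check of the forced mate.
-/

namespace Pool.Agent.Q136.KRK

theorem win_block9 : allN 400 (fun i => chkE ent winN (Nat.add 3600 i)) = true := by
  decide +kernel

theorem win_block10 : allN 400 (fun i => chkE ent winN (Nat.add 4000 i)) = true := by
  decide +kernel

theorem win_block11 : allN 400 (fun i => chkE ent winN (Nat.add 4400 i)) = true := by
  decide +kernel

theorem win_block12 : allN 400 (fun i => chkE ent winN (Nat.add 4800 i)) = true := by
  decide +kernel

theorem win_block13 : allN 400 (fun i => chkE ent winN (Nat.add 5200 i)) = true := by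
  decide +kernel

theorem win_block14 : allN 400 (fun i => chkE ent winN (Nat.add 5600 i)) = true := by
  decide +kernel

theorem win_block15 : allN 400 (fun i => chkE ent winN (Nat.add 6000 i)) = true := by
  decide +kernel

theorem win_block16 : allN 400 (fun i => chkE ent winN (Nat.add 6400 i)) = true := by
  decide +kernel

theorem win_block17 : allN 400 (fun i => chkE ent winN (Nat.add 6800 i)) = true := by
  decide +kernel

end Pool.Agent.Q136.KRK
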