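import Pool.Agent.Q136.KRK.Data

/-!
Part 3 of the check of the forced mate.
-/

namespace Pool.Agent.Q136.KRK

theorem win_block18 : allN 400 (fun i => chkE ent winN (Nat.add 7200 i)) = true := by
  decide +kernel

theorem win_block19 : allN 400 (fun i => chkE ent winN (Nat.add 7600 i)) = true := by
  decide +kernel

theorem win_block20 : allN 400 (fun i => chkE ent winN (Nat.add 8000 i)) = true := by
  decide +kernel

theorem win_block21 : allN 400 (fun i => chkE ent winN (Nat.add 8400 i)) = true := by
  decide +kernel

theorem win_block22 : allN 400 (fun i => chkE ent winN (Nat.add 8800 i)) = true := by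
  decide +kernel

theorem win_block23 : allN 400 (fun i => chkE ent winN (Nat.add 9200 i)) = true := by
  decide +kernel

theorem win_block24 : allN 400 (fun i => chkE ent winN (Nat.add 9600 i)) = true := by
  decide +kernel

theorem win_block25 : allN 400 (fun i => chkE ent winN (Nat.add 10000 i)) = true := by
  decide +kernel

theorem win_block26 : allN 400 (fun i => chkE ent winN (Nat.add 10400 i)) = true := by
  decide +kernel

end Pool.Agent.Q136.KRK
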