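import Pool.Agent.Q136.KRK.Data

/-!
Part 4 of the check of the forced mate.
-/

namespace Pool.Agent.Q136.KRK

theorem win_block27 : allN 400 (fun i => chkE ent winN (Nat.add 10800 i)) = true := by
  decide +kernel

theorem win_block28 : allN 400 (fun i => chkE ent winN (Nat.add 11200 i)) = true := by
  decide +kernel

theorem win_block29 : allN 400 (fun i => chkE ent winN (Nat.add 11600 i)) = true := by
  decide +kernel

theorem win_block30 : allN 400 (fun i => chkE ent winN (Nat.add 12000 i)) = true := by
  decide +kernel

theorem win_block31 : allN 400 (fun i => chkE ent winN (Nat.add 12400 i)) = true := by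
  decide +kernel

theorem win_block32 : allN 65 (fun i => chkE ent winN (Nat.add 12800 i)) = true := by
  decide +kernel

end Pool.Agent.Q136.KRK
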