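import Pool.Agent.Q136.KRK.Win1
import Pool.Agent.Q136.KRK.Win2
import Pool.Agent.Q136.KRK.Win3
import Pool.Agent.Q136.KRK.Win4

/-!
White mates in 39 moves on the board with 9 files and 11 ranks.
-/

namespace Pool.Agent.Q136.KRK

theorem win_ok : ∀ i < winN, chkE ent winN i = true := by
  intro i hi
  have hn : winN = 12865 := rfl
  have key : ∀ (a m : ℕ), allN m (fun i => chkE ent winN (Nat.add a i)) = true →
      a ≤ i → i < a + m → chkE ent winN i = true := by
    intro a m h h1 h2
    have := (allN_iff.1 h) (i - a) (by omega)
    have e : Nat.add a (i - a) = i := by simp only [Nat.add_eq]; omega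
    rw [e] at this
    exact this
  rw [hn] at hi
  have hq : i / 400 < 33 := by omega
  have hq1 : 400 * (i / 400) ≤ i := by omega
  have hq2 : i < 400 * (i / 400) + 400 := by omega
  interval_cases hk : (i / 400)
  · exact key 0 400 win_block0 (by omega) (by omega)
  · exact key 400 400 win_block1 (by omega) (by omega)
  · exact key 800 400 win_block2 (by omega) (by omega)
  · exact key 1200 400 win_block3 (by omega) (by omega)
  · exact key 1600 400 win_block4 (by omega) (by omega)
  · exact key 2000 400 win_block5 (by omega) (by omega)
  · exact key 2400 400 win_block6 (by omega) (by omega)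
  · exact key 2800 400 win_block7 (by omega) (by omega)
  · exact key 3200 400 win_block8 (by omega) (by omega)
  · exact key 3600 400 win_block9 (by omega) (by omega)
  · exact key 4000 400 win_block10 (by omega) (by omega)
  · exact key 4400 400 win_block11 (by omega) (by omega)
  · exact key 4800 400 win_block12 (by omega) (by omega)
  · exact key 5200 400 win_block13 (by omega) (by omega)
  · exact key 5600 400 win_block14 (by omega) (by omega)
  · exact key 6000 400 win_block15 (by omega) (by omega)
  · exact key 6400 400 win_block16 (by omega) (by omega)
  · exact key 6800 400 win_block17 (by omega) (by omega)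
  · exact key 7200 400 win_block18 (by omega) (by omega)
  · exact key 7600 400 win_block19 (by omega) (by omega)
  · exact key 8000 400 win_block20 (by omega) (by omega)
  · exact key 8400 400 win_block21 (by omega) (by omega)
  · exact key 8800 400 win_block22 (by omega) (by omega)
  · exact key 9200 400 win_block23 (by omega) (by omega)
  · exact key 9600 400 win_block24 (by omega) (by omega)
  · exact key 10000 400 win_block25 (by omega) (by omega)
  · exact key 10400 400 win_block26 (by omega) (by omega)
  · exact key 10800 400 win_block27 (by omega) (by omega)
  · exact key 11200 400 win_block28 (by omega) (by omega)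
  · exact key 11600 400 win_block29 (by omega) (by omega)
  · exact key 12000 400 win_block30 (by omega) (by omega)
  · exact key 12400 400 win_block31 (by omega) (by omega)
  · exact key 12800 65 win_block32 (by omega) (by omega)

theorem winsIn_911 : WinsIn ⟨9, 11⟩ 39 start := by
  have h := winsIn_of_chk win_ok 39 12864 (by decide) (by
    have : dep (ent 12864) = 39 := by decide +kernel
    rw [this])
  have e : posOf (ent 12864) = start := by
    have h1 : dg (ent 12864) 1 = 1 := by decide +kernel
    have h2 : dg (ent 12864) 16 = 1 := by decide +kernel
    have h3 : dg (ent 12864) 256 = 2 := by decide +kernel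
    have h4 : dg (ent 12864) 4096 = 2 := by decide +kernel
    have h5 : dg (ent 12864) 65536 = 3 := by decide +kernel
    have h6 : dg (ent 12864) 1048576 = 3 := by decide +kernel
    unfold posOf start
    rw [h1, h2, h3, h4, h5, h6]
  rw [e] at h
  exact h

end Pool.Agent.Q136.KRK
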