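import Pool.Agent.Q136.KRK.Game

/-!
Positions that are safe for Black: a finite check on offsets of the White pieces from the Black
king, cut off at distance `c` (king) and `2` (rook).
-/

namespace Pool.Agent.Q136.KRK

/-- The offset of the coordinate `a` from `b`, plus `c`, cut off to `0 .. 2c`. -/
def cl (c a b : ℕ) : ℕ := min (a + c - b) (2 * c)

/-- `f` holds for all numbers below `n`. -/
def allN (n : ℕ) (f : ℕ → Bool) : Bool :=
  Nat.rec true (fun k ih => f k && ih) n

theorem allN_iff {n : ℕ} {f : ℕ → Bool} : allN n f = true ↔ ∀ k < n, f k = true := by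
  induction n with
  | zero => simp [allN]
  | succ n ih =>
      have : allN (n + 1) f = (f n && allN n f) := rfl
      rw [this, Bool.and_eq_true, ih]
      constructor
      · rintro ⟨h1, h2⟩ k hk
        rcases Nat.lt_succ_iff_lt_or_eq.1 hk with h | h
        · exact h2 k h
        · rw [h]; exact h1
      · intro h
        exact ⟨h n (Nat.lt_succ_self n), fun k hk => h k (Nat.lt_succ_of_lt hk)⟩

/-- `f` holds for some number below `n`. -/
def exN (n : ℕ) (f : ℕ → Bool) : Bool :=
  Nat.rec false (fun k ih => f k || ih) n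

theorem exN_imp {n : ℕ} {f : ℕ → Bool} : exN n f = true → ∃ k < n, f k = true := by
  induction n with
  | zero => simp [exN]
  | succ n ih =>
      have : exN (n + 1) f = (f n || exN n f) := rfl
      rw [this, Bool.or_eq_true]
      rintro (h | h)
      · exact ⟨n, Nat.lt_succ_self n, h⟩
      · obtain ⟨k, h1, h2⟩ := ih h
        exact ⟨k, Nat.lt_succ_of_lt h1, h2⟩

/-- All values of the cut off offset `d` (in `0 .. C`) after the Black king has changed this
coordinate by `i - 1`. -/
def sh (C d i : ℕ) (f : ℕ → Bool) : Bool :=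
  match i with
  | 0 => if d = 0 then f 0 && f 1 else if d = C then f C else f (d + 1)
  | 1 => f d
  | _ => if d = 0 then f 0 else if d = C then f (C - 1) && f C else f (d - 1)

theorem sh_imp {c a b b' i : ℕ} {f : ℕ → Bool} (hc : 1 ≤ c) (hi : i ≤ 2) (hb : b' + 1 = b + i)
    (h : sh (2 * c) (cl c a b) i f = true) : f (cl c a b') = true := by
  unfold sh at h
  have h2 : ∀ d, cl c a b = d → (a + c - b ≤ d ∨ d = 2 * c) ∧ (d ≤ a + c - b) ∧ d ≤ 2 * c := by
    intro d hd
    unfold cl at hd
    omega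
  obtain ⟨k1, k2, k3⟩ := h2 _ rfl
  interval_cases i
  · simp only at h
    split_ifs at h with h3 h4
    · rw [Bool.and_eq_true] at h
      have : cl c a b' = 0 ∨ cl c a b' = 1 := by unfold cl at h3 ⊢; omega
      rcases this with h5 | h5
      · rw [h5]; exact h.1
      · rw [h5]; exact h.2
    · have : cl c a b' = 2 * c := by unfold cl at h3 h4 ⊢; omega
      rw [this]; exact h
    · have : cl c a b' = cl c a b + 1 := by unfold cl at h3 h4 ⊢; omega
      rw [this]; exact h
  · have : b' = b := by omega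
    rw [this]; exact h
  · simp only at h
    split_ifs at h with h3 h4
    · have : cl c a b' = 0 := by unfold cl at h3 ⊢; omega
      rw [this]; exact h
    · rw [Bool.and_eq_true] at h
      have : cl c a b' = 2 * c - 1 ∨ cl c a b' = 2 * c := by unfold cl at h3 h4 ⊢; omega
      rcases this with h5 | h5
      · rw [h5]; exact h.1
      · rw [h5]; exact h.2
    · have : cl c a b' = cl c a b - 1 := by unfold cl at h3 h4 ⊢; omega
      rw [this]; exact h

/-- The class of the rank of the Black king. -/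
def vc (L : ℕ) (north : Bool) (y : ℕ) : ℕ := if north then y else min y L

/-- All classes of the rank of the Black king after it has changed by `j - 1`. -/
def shv (L : ℕ) (north : Bool) (v j : ℕ) (f : ℕ → Bool) : Bool :=
  if north = false ∧ v = L then (if j = 0 then f (L - 1) && f L else f L) else f (v + j - 1)

theorem shv_imp {L y y' j : ℕ} {north : Bool} {f : ℕ → Bool} (hL : 2 ≤ L) (hj : j ≤ 2)
    (hy : y' + 1 = y + j) (h : shv L north (vc L north y) j f = true) :
    f (vc L north y') = true := by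
  unfold shv vc at *
  cases north with
  | true =>
      simp only [if_true] at *
      simp at h
      have : y' = y + j - 1 := by omega
      rw [this]; exact h
  | false =>
      simp only [Bool.false_eq_true, if_false, true_and] at *
      split_ifs at h with h1 h2
      · rw [Bool.and_eq_true] at h
        have : min y' L = L - 1 ∨ min y' L = L := by omega
        rcases this with h5 | h5
        · rw [h5]; exact h.1
        · rw [h5]; exact h.2
      · have : min y' L = L := by omega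
        rw [this]; exact h
      · have : min y' L = min y L + j - 1 := by omega
        rw [this]; exact h

/-- The White king may stand at the cut off offset `(dx, dy)`: inside the board. -/
def okK (M L c : ℕ) (north : Bool) (u v dx dy : ℕ) : Bool :=
  Nat.ble (c + 1) (u + dx) && (Nat.ble (u + dx) (M + c) &&
    ((north == false && Nat.beq v L) || Nat.ble (c + 1) (v + dy)) &&
    (north == false || Nat.ble (v + dy) (L + c)))

/-- The White king at the cut off offset `(dx, dy)` is not next to (or on) the square with offset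
`(i - 1, j - 1)`. -/
def far (c dx dy i j : ℕ) : Bool :=
  Nat.ble (dx + 3) (c + i) || Nat.ble (c + i + 1) dx ||
  Nat.ble (dy + 3) (c + j) || Nat.ble (c + j + 1) dy

/-- An exit is available. -/
def exi (M L : ℕ) (north : Bool) (u v : ℕ) : Bool := Nat.beq u M || (north && Nat.beq v L)

abbrev Tab := ℕ → ℕ → ℕ → ℕ → ℕ → ℕ → Bool

/-- Check of one position with White to move. -/
def chkW (M L c : ℕ) (north : Bool) (w b : Tab) (u v dx dy ex ey : ℕ) : Bool :=
  !(w u v dx dy ex ey) ||
  (exi M L north u v ||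
   (allN 5 (fun e => (Nat.beq e 2 && Nat.beq ey 2) || b u v dx dy e ey) &&
    allN 5 (fun e => (Nat.beq ex 2 && Nat.beq e 2) || b u v dx dy ex e) &&
    allN 3 (fun i => allN 3 (fun j =>
      Nat.beq (dx + i) 0 || Nat.beq (dy + j) 0 || Nat.ble (2 * c + 2) (dx + i) ||
      Nat.ble (2 * c + 2) (dy + j) ||
      !(far c (dx + i - 1) (dy + j - 1) 1 1) ||
      !(okK M L c north u v (dx + i - 1) (dy + j - 1)) ||
      b u v (dx + i - 1) (dy + j - 1) ex ey))))

/-- Check of one position with Black to move. -/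
def chkB (M L c : ℕ) (north : Bool) (w b : Tab) (u v dx dy ex ey : ℕ) : Bool :=
  !(b u v dx dy ex ey) ||
  (exi M L north u v ||
   exN 3 (fun i => exN 3 (fun j =>
    !(Nat.beq i 1 && Nat.beq j 1) && Nat.ble 2 (u + i) && Nat.ble 2 (v + j) && far c dx dy i j &&
    ((Nat.beq (ex + 1) (2 + i) && Nat.beq (ey + 1) (2 + j)) ||
     (!(Nat.beq (ex + 1) (2 + i)) && !(Nat.beq (ey + 1) (2 + j)) &&
      shv L north v j (fun v' =>
        sh (2 * c) dx i (fun dx' => sh (2 * c) dy j (fun dy' =>
          !(okK M L c north (u + i - 1) v' dx' dy') ||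
          sh 4 ex i (fun ex' => sh 4 ey j (fun ey' =>
            w (u + i - 1) v' dx' dy' ex' ey'))))))))))

/-- The full check. -/
def chkAll (M L c : ℕ) (north : Bool) (w b : Tab) (u : ℕ) : Bool :=
  allN L (fun v => allN (2 * c + 1) (fun dx => allN (2 * c + 1) (fun dy =>
    allN 5 (fun ex => allN 5 (fun ey =>
      chkW M L c north w b u (v + 1) dx dy ex ey &&
      chkB M L c north w b u (v + 1) dx dy ex ey)))))

/-- The board of the check. -/
def bd (M L : ℕ) (north : Bool) : Board := ⟨M, if north then (L : ℕ∞) else ⊤⟩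

/-- The invariant: positions (White to move) in which Black is safe. -/
def Inv (M L c : ℕ) (north : Bool) (w : Tab) (p : Pos) : Prop :=
  (bd M L north).On p.bk ∧ (bd M L north).On p.wk ∧ p.wk ≠ p.bk ∧ ¬ Adj p.wk p.bk ∧ p.wr ≠ p.bk ∧
  w p.bk.1 (vc L north p.bk.2) (cl c p.wk.1 p.bk.1) (cl c p.wk.2 p.bk.2)
    (cl 2 p.wr.1 p.bk.1) (cl 2 p.wr.2 p.bk.2) = true

theorem on_bd {M L : ℕ} {north : Bool} {s : Sq} :
    (bd M L north).On s ↔ 1 ≤ s.1 ∧ 1 ≤ s.2 ∧ s.1 ≤ M ∧ (north = true → s.2 ≤ L) := by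
  unfold Board.On bd
  cases north <;> simp

theorem okK_of_on {M L c : ℕ} {north : Bool} {a b : Sq} (ha : (bd M L north).On a)
    (hb : (bd M L north).On b) :
    okK M L c north b.1 (vc L north b.2) (cl c a.1 b.1) (cl c a.2 b.2) = true := by
  rw [on_bd] at ha hb
  obtain ⟨a1, a2, a3, a4⟩ := ha
  obtain ⟨b1, b2, b3, b4⟩ := hb
  unfold okK
  cases north with
  | true =>
      have a5 := a4 rfl
      have b5 := b4 rfl
      simp only [Bool.and_eq_true, Bool.or_eq_true, Nat.ble_eq, beq_iff_eq, Bool.true_eq_false,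
        false_and, false_or, vc, if_true]
      unfold cl
      omega
  | false =>
      simp only [Bool.and_eq_true, Bool.or_eq_true, Nat.ble_eq, Nat.beq_eq, beq_self_eq_true,
        true_and, true_or, vc, Bool.false_eq_true, if_false, and_true]
      unfold cl
      refine ⟨by omega, by omega, ?_⟩
      by_cases h : min b.2 L = L
      · left; exact h
      · right; omega

theorem far_imp {c : ℕ} {a b s : Sq} {i j : ℕ} (hc : 3 ≤ c) (hi : i ≤ 2) (hj : j ≤ 2)
    (h1 : s.1 + 1 = b.1 + i) (h2 : s.2 + 1 = b.2 + j)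
    (h : far c (cl c a.1 b.1) (cl c a.2 b.2) i j = true) : s ≠ a ∧ ¬ Adj a s := by
  have key : ¬ (a.1 ≤ s.1 + 1 ∧ s.1 ≤ a.1 + 1 ∧ a.2 ≤ s.2 + 1 ∧ s.2 ≤ a.2 + 1) := by
    rintro ⟨k1, k2, k3, k4⟩
    unfold far at h
    simp only [Bool.or_eq_true, Nat.ble_eq] at h
    unfold cl at h
    omega
  constructor
  · rintro rfl
    exact key ⟨by omega, by omega, by omega, by omega⟩
  · rintro ⟨_, k1, k2, k3, k4⟩
    exact key ⟨k1, k2, k3, k4⟩

theorem far_of_not_adj {c : ℕ} {a b : Sq} (hc : 3 ≤ c) (h1 : a ≠ b) (h2 : ¬ Adj a b) :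
    far c (cl c a.1 b.1) (cl c a.2 b.2) 1 1 = true := by
  by_contra h
  apply h2
  refine ⟨h1, ?_⟩
  unfold far at h
  simp only [Bool.or_eq_true, Nat.ble_eq] at h
  unfold cl at h
  omega

/-- Facts from the check. -/
theorem chkAll_imp {M L c : ℕ} {north : Bool} {w b : Tab} {u v dx dy ex ey : ℕ}
    (h : chkAll M L c north w b u = true) (hv : 1 ≤ v) (hv' : v ≤ L) (hdx : dx < 2 * c + 1)
    (hdy : dy < 2 * c + 1) (hex : ex < 5) (hey : ey < 5) :
    chkW M L c north w b u v dx dy ex ey = true ∧ chkB M L c north w b u v dx dy ex ey = true := by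
  unfold chkAll at h
  rw [allN_iff] at h
  have h1 := h (v - 1) (by omega)
  rw [allN_iff] at h1
  have h2 := h1 dx hdx
  rw [allN_iff] at h2
  have h3 := h2 dy hdy
  rw [allN_iff] at h3
  have h4 := h3 ex hex
  rw [allN_iff] at h4
  have h5 := h4 ey hey
  rw [Bool.and_eq_true] at h5
  have : v - 1 + 1 = v := by omega
  rw [this] at h5
  exact h5

theorem cl_lt {c a b : ℕ} : cl c a b < 2 * c + 1 := by unfold cl; omega

theorem vc_pos {L y : ℕ} {north : Bool} (hL : 1 ≤ L) (hy : 1 ≤ y) : 1 ≤ vc L north y := by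
  unfold vc; cases north <;> simp <;> omega

theorem vc_le {L y : ℕ} {north : Bool} (hy : north = true → y ≤ L) : vc L north y ≤ L := by
  unfold vc
  cases north with
  | true => simpa using hy rfl
  | false => simp

theorem vc_le' {L y : ℕ} {north : Bool} : vc L north y ≤ y := by
  unfold vc; cases north <;> simp

/-- After a move of White from a safe position an exit is available or the table `b` applies. -/
theorem step_w {M L c : ℕ} {north : Bool} {w b : Tab} (hc : 3 ≤ c) (hL : 2 ≤ L)
    (h : ∀ u, 1 ≤ u → u ≤ M → chkAll M L c north w b u = true) {p q : Pos}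
    (hp : Inv M L c north w p) (hq : WMove (bd M L north) p q) :
    exi M L north q.bk.1 (vc L north q.bk.2) = true ∨
    ((bd M L north).On q.bk ∧ (bd M L north).On q.wk ∧ q.wk ≠ q.bk ∧ ¬ Adj q.wk q.bk ∧
      q.wr ≠ q.bk ∧
      b q.bk.1 (vc L north q.bk.2) (cl c q.wk.1 q.bk.1) (cl c q.wk.2 q.bk.2)
        (cl 2 q.wr.1 q.bk.1) (cl 2 q.wr.2 q.bk.2) = true) := by
  obtain ⟨p1, p2, p3, p4, p5, p6⟩ := hp
  obtain ⟨hbk, hq⟩ := hq
  have p1' := on_bd.1 p1
  have hck := (chkAll_imp (h p.bk.1 p1'.1 p1'.2.2.1) (vc_pos (north := north) (by omega) p1'.2.1)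
    (vc_le p1'.2.2.2) (cl_lt (c := c) (a := p.wk.1) (b := p.bk.1))
    (cl_lt (c := c) (a := p.wk.2) (b := p.bk.2)) (cl_lt (c := 2) (a := p.wr.1) (b := p.bk.1))
    (cl_lt (c := 2) (a := p.wr.2) (b := p.bk.2))).1
  unfold chkW at hck
  rw [p6] at hck
  simp only [Bool.not_true, Bool.false_or, Bool.or_eq_true] at hck
  rw [hbk]
  rcases hck with hck | hck
  · exact Or.inl hck
  right
  rw [Bool.and_eq_true, Bool.and_eq_true] at hck
  obtain ⟨⟨k1, k2⟩, k3⟩ := hck
  rw [allN_iff] at k1 k2 k3
  rcases hq with ⟨q1, q2, q3, q4, q5, q6⟩ | ⟨q1, q2, q3, q4, q5, q6, q7, q8⟩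
  · refine ⟨p1, q3, q5, q6, by rw [q1]; exact p5, ?_⟩
    obtain ⟨_, r1, r2, r3, r4⟩ := q2
    have e1 : ∃ i < 3, cl c p.wk.1 p.bk.1 + i = cl c q.wk.1 p.bk.1 + 1 := by
      refine ⟨cl c q.wk.1 p.bk.1 + 1 - cl c p.wk.1 p.bk.1, ?_, ?_⟩ <;> unfold cl <;> omega
    have e2 : ∃ j < 3, cl c p.wk.2 p.bk.2 + j = cl c q.wk.2 p.bk.2 + 1 := by
      refine ⟨cl c q.wk.2 p.bk.2 + 1 - cl c p.wk.2 p.bk.2, ?_, ?_⟩ <;> unfold cl <;> omega
    obtain ⟨i, hi, e1⟩ := e1
    obtain ⟨j, hj, e2⟩ := e2
    have k4 := k3 i hi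
    rw [allN_iff] at k4
    have k5 := k4 j hj
    have f1 := far_of_not_adj hc q5 q6
    have f2 := okK_of_on (c := c) q3 p1
    have g1 : cl c p.wk.1 p.bk.1 + i - 1 = cl c q.wk.1 p.bk.1 := by omega
    have g2 : cl c p.wk.2 p.bk.2 + j - 1 = cl c q.wk.2 p.bk.2 := by omega
    rw [g1, g2, f1, f2, e1, e2] at k5
    have l1 := cl_lt (c := c) (a := q.wk.1) (b := p.bk.1)
    have l2 := cl_lt (c := c) (a := q.wk.2) (b := p.bk.2)
    simp only [Bool.not_true, Bool.or_eq_true, Nat.beq_eq, Nat.ble_eq, Bool.false_eq_true,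
      or_false] at k5
    rw [q1]
    rcases k5 with (((k5 | k5) | k5) | k5) | k5
    · omega
    · omega
    · omega
    · omega
    · exact k5
  · refine ⟨p1, by rw [q1]; exact p2, by rw [q1]; exact p3, by rw [q1]; exact p4, q6, ?_⟩
    rw [q1]
    rcases q3 with q3 | q3
    · have k5 := k2 (cl 2 q.wr.2 p.bk.2) cl_lt
      rw [Bool.or_eq_true] at k5
      rw [q3]
      rcases k5 with k5 | k5
      · exfalso
        rw [Bool.and_eq_true, Nat.beq_eq, Nat.beq_eq] at k5
        apply q6
        apply Prod.ext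
        · rw [q3]; have := k5.1; unfold cl at this; omega
        · have := k5.2; unfold cl at this; omega
      · exact k5
    · have k5 := k1 (cl 2 q.wr.1 p.bk.1) cl_lt
      rw [Bool.or_eq_true] at k5
      rw [q3]
      rcases k5 with k5 | k5
      · exfalso
        rw [Bool.and_eq_true, Nat.beq_eq, Nat.beq_eq] at k5
        apply q6
        apply Prod.ext
        · have := k5.1; unfold cl at this; omega
        · rw [q3]; have := k5.2; unfold cl at this; omega
      · exact k5

theorem exi_imp {M L : ℕ} {north : Bool} {q : Pos} (hb : (bd M L north).On q.bk)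
    (h : exi M L north q.bk.1 (vc L north q.bk.2) = true) :
    ∃ s, BMove (bd M L north) q s ∧ ¬ (bd M L north).On s := by
  unfold exi at h
  rw [Bool.or_eq_true, Nat.beq_eq, Bool.and_eq_true, Nat.beq_eq] at h
  have hb' := on_bd.1 hb
  rcases h with h | ⟨h1, h2⟩
  · have hs : ¬ (bd M L north).On (q.bk.1 + 1, q.bk.2) := by
      rw [on_bd]; rintro ⟨_, _, k, _⟩; simp only at k; omega
    refine ⟨(q.bk.1 + 1, q.bk.2), ⟨⟨?_, ?_⟩, Or.inr ⟨?_, ?_, hs⟩⟩, hs⟩
    · intro k
      have := congrArg Prod.fst k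
      simp only at this
      omega
    · simp only; omega
    · simp only; omega
    · simp only; omega
  · have h3 : q.bk.2 = L := by
      unfold vc at h2; rw [if_pos h1] at h2; exact h2
    have hs : ¬ (bd M L north).On (q.bk.1, q.bk.2 + 1) := by
      rw [on_bd]; rintro ⟨_, _, _, k⟩
      have := k h1
      simp only at this; omega
    refine ⟨(q.bk.1, q.bk.2 + 1), ⟨⟨?_, ?_⟩, Or.inr ⟨?_, ?_, hs⟩⟩, hs⟩
    · intro k
      have := congrArg Prod.snd k
      simp only at this
      omega
    · simp only; omega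
    · simp only; omega
    · simp only; omega

/-- Black has an answer: an exit, a capture, or a move to a safe position. -/
theorem step_b {M L c : ℕ} {north : Bool} {w b : Tab} (hc : 3 ≤ c) (hL : 2 ≤ L)
    (h : ∀ u, 1 ≤ u → u ≤ M → chkAll M L c north w b u = true) {p q : Pos}
    (hp : Inv M L c north w p) (hq : WMove (bd M L north) p q) :
    ∃ s, BMove (bd M L north) q s ∧
      (¬ (bd M L north).On s ∨ s = q.wr ∨ Inv M L c north w ⟨q.wk, q.wr, s⟩) := by
  have hbk : (bd M L north).On q.bk := by rw [hq.1]; exact hp.1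
  rcases step_w hc hL h hp hq with h1 | ⟨q1, q2, q3, q4, q5, q6⟩
  · obtain ⟨s, h2, h3⟩ := exi_imp hbk h1
    exact ⟨s, h2, Or.inl h3⟩
  have q1' := on_bd.1 q1
  have hck := (chkAll_imp (h q.bk.1 q1'.1 q1'.2.2.1) (vc_pos (north := north) (by omega) q1'.2.1)
    (vc_le q1'.2.2.2) (cl_lt (c := c) (a := q.wk.1) (b := q.bk.1))
    (cl_lt (c := c) (a := q.wk.2) (b := q.bk.2)) (cl_lt (c := 2) (a := q.wr.1) (b := q.bk.1))
    (cl_lt (c := 2) (a := q.wr.2) (b := q.bk.2))).2
  unfold chkB at hck
  rw [q6] at hck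
  simp only [Bool.not_true, Bool.false_or] at hck
  rw [Bool.or_eq_true] at hck
  by_cases hex : exi M L north q.bk.1 (vc L north q.bk.2) = true
  · obtain ⟨s, h2, h3⟩ := exi_imp hbk hex
    exact ⟨s, h2, Or.inl h3⟩
  rcases hck with hck | hck
  · exact absurd hck hex
  obtain ⟨i, hi, hck⟩ := exN_imp hck
  obtain ⟨j, hj, hck⟩ := exN_imp hck
  rw [Bool.and_eq_true, Bool.and_eq_true, Bool.and_eq_true, Bool.and_eq_true, Nat.ble_eq,
    Nat.ble_eq, Bool.or_eq_true, Bool.and_eq_true, Bool.and_eq_true, Bool.and_eq_true, Nat.beq_eq,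
    Nat.beq_eq] at hck
  obtain ⟨⟨⟨⟨r1, r2⟩, r3⟩, r4⟩, r5⟩ := hck
  have hne : ¬ (i = 1 ∧ j = 1) := by
    rintro ⟨rfl, rfl⟩
    simp at r1
  have hv2 : 2 ≤ q.bk.2 + j := by
    have := vc_le' (L := L) (y := q.bk.2) (north := north); omega
  obtain ⟨s, hs1, hs2⟩ : ∃ s : Sq, s.1 + 1 = q.bk.1 + i ∧ s.2 + 1 = q.bk.2 + j :=
    ⟨(q.bk.1 + i - 1, q.bk.2 + j - 1), by simp only; omega, by simp only; omega⟩
  have hadj : Adj q.bk s := by
    refine ⟨?_, by omega, by omega, by omega, by omega⟩
    rintro hbs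
    rw [← hbs] at hs1 hs2
    omega
  have hex' : q.bk.1 ≠ M ∧ ¬ (north = true ∧ q.bk.2 = L) := by
    constructor
    · intro k; apply hex; unfold exi; rw [Bool.or_eq_true]; left; rw [Nat.beq_eq]; exact k
    · rintro ⟨k1, k2⟩; apply hex; unfold exi vc; rw [k1]; simp [k2]
  have hon : (bd M L north).On s := by
    rw [on_bd]
    refine ⟨by omega, by omega, by omega, fun k => ?_⟩
    have k1 := q1'.2.2.2 k
    have k2 : q.bk.2 ≠ L := fun k3 => hex'.2 ⟨k, k3⟩
    omega
  obtain ⟨hf1, hf2⟩ := far_imp hc (by omega) (by omega) hs1 hs2 r4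
  rcases r5 with ⟨r5, r6⟩ | ⟨⟨r5, r6⟩, r7⟩
  · have hsw : s = q.wr := by
      apply Prod.ext
      · unfold cl at r5; omega
      · unfold cl at r6; omega
    exact ⟨s, ⟨hadj, Or.inl ⟨hon, hf1, hf2, fun k => k.1 hsw⟩⟩, Or.inr (Or.inl hsw)⟩
  · have r5' : s.1 ≠ q.wr.1 := by
      intro k
      have : cl 2 q.wr.1 q.bk.1 + 1 = 2 + i := by unfold cl; omega
      rw [Bool.not_eq_true'] at r5
      rw [this] at r5
      simp at r5
    have r6' : s.2 ≠ q.wr.2 := by
      intro k
      have : cl 2 q.wr.2 q.bk.2 + 1 = 2 + j := by unfold cl; omega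
      rw [Bool.not_eq_true'] at r6
      rw [this] at r6
      simp at r6
    refine ⟨s, ⟨hadj, Or.inl ⟨hon, hf1, hf2, fun k => ?_⟩⟩, Or.inr (Or.inr ?_)⟩
    · rcases k.2.1 with k | k
      · exact r5' k
      · exact r6' k
    · refine ⟨hon, q2, fun k => hf1 k.symm, hf2, fun k => r5' (congrArg Prod.fst k).symm, ?_⟩
      have a1 := shv_imp hL (by omega) hs2 r7
      have a2 := sh_imp (b' := s.1) (by omega) (by omega) hs1 a1
      have a3 := sh_imp (b' := s.2) (by omega) (by omega) hs2 a2
      have hu : q.bk.1 + i - 1 = s.1 := by omega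
      rw [hu] at a3
      have a4 : okK M L c north s.1 (vc L north s.2) (cl c q.wk.1 s.1) (cl c q.wk.2 s.2) = true :=
        okK_of_on q2 hon
      rw [a4] at a3
      simp only [Bool.not_true, Bool.false_or] at a3
      have a5 := sh_imp (c := 2) (b' := s.1) (by omega) (by omega) hs1 a3
      exact sh_imp (c := 2) (b' := s.2) (by omega) (by omega) hs2 a5

/-- Black is safe in all positions of the invariant. -/
theorem not_wins {M L c : ℕ} {north : Bool} {w b : Tab} (hc : 3 ≤ c) (hL : 2 ≤ L)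
    (h : ∀ u, 1 ≤ u → u ≤ M → chkAll M L c north w b u = true) {p : Pos}
    (hp : Inv M L c north w p) : ¬ Wins (bd M L north) p := by
  intro hw
  induction hw with
  | mate h1 h2 =>
      obtain ⟨s, hs, _⟩ := step_b hc hL h hp h1
      exact h2.2 s hs
  | step h1 _ h3 _ ih =>
      obtain ⟨s, hs, k | k | k⟩ := step_b hc hL h hp h1
      · exact k (h3 s hs).1
      · exact (h3 s hs).2 k
      · exact ih s hs k

end Pool.Agent.Q136.KRK
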