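import Pool.Agent.Q136.KRK.Tables

/-!
The strip with 8 files: the kernel evaluates the check.
-/

namespace Pool.Agent.Q136.KRK

theorem strip_row_1_0 : stripRow 1 0 = true := by decide +kernel

theorem strip_row_1_1 : stripRow 1 1 = true := by decide +kernel

theorem strip_row_2_0 : stripRow 2 0 = true := by decide +kernel

theorem strip_row_2_1 : stripRow 2 1 = true := by decide +kernel

theorem strip_row_3_0 : stripRow 3 0 = true := by decide +kernel

theorem strip_row_3_1 : stripRow 3 1 = true := by decide +kernel

theorem strip_row_4_0 : stripRow 4 0 = true := by decide +kernel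

theorem strip_row_4_1 : stripRow 4 1 = true := by decide +kernel

theorem strip_row_5_0 : stripRow 5 0 = true := by decide +kernel

theorem strip_row_5_1 : stripRow 5 1 = true := by decide +kernel

theorem strip_row_6_0 : stripRow 6 0 = true := by decide +kernel

theorem strip_row_6_1 : stripRow 6 1 = true := by decide +kernel

theorem strip_row_7_0 : stripRow 7 0 = true := by decide +kernel

theorem strip_row_7_1 : stripRow 7 1 = true := by decide +kernel

theorem strip_row_8_0 : stripRow 8 0 = true := by decide +kernel

theorem strip_row_8_1 : stripRow 8 1 = true := by decide +kernel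

/-- Black is safe on the strip with 8 files and infinitely many ranks. -/
theorem not_wins_strip : ¬ Wins ⟨8, ⊤⟩ start := by
  have h : ∀ u, 1 ≤ u → u ≤ 8 →
      chkAll 8 2 4 false (tab stripW 2 4) (tab stripB 2 4) u = true := by
    intro u h1 h2
    interval_cases u
    · exact stripCheck_of_rows strip_row_1_0 strip_row_1_1
    · exact stripCheck_of_rows strip_row_2_0 strip_row_2_1
    · exact stripCheck_of_rows strip_row_3_0 strip_row_3_1
    · exact stripCheck_of_rows strip_row_4_0 strip_row_4_1
    · exact stripCheck_of_rows strip_row_5_0 strip_row_5_1
    · exact stripCheck_of_rows strip_row_6_0 strip_row_6_1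
    · exact stripCheck_of_rows strip_row_7_0 strip_row_7_1
    · exact stripCheck_of_rows strip_row_8_0 strip_row_8_1
  have hp : Inv 8 2 4 false (tab stripW 2 4) start := by
    refine ⟨?_, ?_, ?_, ?_, ?_, ?_⟩
    · rw [on_bd]; decide
    · rw [on_bd]; decide
    · decide
    · unfold Adj; decide
    · decide
    · decide +kernel
  have := not_wins (by norm_num) (by norm_num) h hp
  exact this

end Pool.Agent.Q136.KRK
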