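import Pool.Agent.Q136.KRK.Tables

/-!
The board with 10 files and 10 ranks: second part of the check.
-/

namespace Pool.Agent.Q136.KRK

theorem ten_row_6_0 : tenRow 6 0 = true := by decide +kernel

theorem ten_row_6_1 : tenRow 6 1 = true := by decide +kernel

theorem ten_row_6_2 : tenRow 6 2 = true := by decide +kernel

theorem ten_row_6_3 : tenRow 6 3 = true := by decide +kernel

theorem ten_row_6_4 : tenRow 6 4 = true := by decide +kernel

theorem ten_row_6_5 : tenRow 6 5 = true := by decide +kernel

theorem ten_row_6_6 : tenRow 6 6 = true := by decide +kernel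

theorem ten_row_6_7 : tenRow 6 7 = true := by decide +kernel

theorem ten_row_6_8 : tenRow 6 8 = true := by decide +kernel

theorem ten_row_6_9 : tenRow 6 9 = true := by decide +kernel

theorem ten_ok6 : tenCheck 6 = true :=
  tenCheck_of_rows ten_row_6_0 ten_row_6_1 ten_row_6_2 ten_row_6_3 ten_row_6_4
    ten_row_6_5 ten_row_6_6 ten_row_6_7 ten_row_6_8 ten_row_6_9

theorem ten_row_7_0 : tenRow 7 0 = true := by decide +kernel

theorem ten_row_7_1 : tenRow 7 1 = true := by decide +kernel

theorem ten_row_7_2 : tenRow 7 2 = true := by decide +kernel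

theorem ten_row_7_3 : tenRow 7 3 = true := by decide +kernel

theorem ten_row_7_4 : tenRow 7 4 = true := by decide +kernel

theorem ten_row_7_5 : tenRow 7 5 = true := by decide +kernel

theorem ten_row_7_6 : tenRow 7 6 = true := by decide +kernel

theorem ten_row_7_7 : tenRow 7 7 = true := by decide +kernel

theorem ten_row_7_8 : tenRow 7 8 = true := by decide +kernel

theorem ten_row_7_9 : tenRow 7 9 = true := by decide +kernel

theorem ten_ok7 : tenCheck 7 = true :=
  tenCheck_of_rows ten_row_7_0 ten_row_7_1 ten_row_7_2 ten_row_7_3 ten_row_7_4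
    ten_row_7_5 ten_row_7_6 ten_row_7_7 ten_row_7_8 ten_row_7_9

theorem ten_row_8_0 : tenRow 8 0 = true := by decide +kernel

theorem ten_row_8_1 : tenRow 8 1 = true := by decide +kernel

theorem ten_row_8_2 : tenRow 8 2 = true := by decide +kernel

theorem ten_row_8_3 : tenRow 8 3 = true := by decide +kernel

theorem ten_row_8_4 : tenRow 8 4 = true := by decide +kernel

theorem ten_row_8_5 : tenRow 8 5 = true := by decide +kernel

theorem ten_row_8_6 : tenRow 8 6 = true := by decide +kernel

theorem ten_row_8_7 : tenRow 8 7 = true := by decide +kernel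

theorem ten_row_8_8 : tenRow 8 8 = true := by decide +kernel

theorem ten_row_8_9 : tenRow 8 9 = true := by decide +kernel

theorem ten_ok8 : tenCheck 8 = true :=
  tenCheck_of_rows ten_row_8_0 ten_row_8_1 ten_row_8_2 ten_row_8_3 ten_row_8_4
    ten_row_8_5 ten_row_8_6 ten_row_8_7 ten_row_8_8 ten_row_8_9

theorem ten_row_9_0 : tenRow 9 0 = true := by decide +kernel

theorem ten_row_9_1 : tenRow 9 1 = true := by decide +kernel

theorem ten_row_9_2 : tenRow 9 2 = true := by decide +kernel

theorem ten_row_9_3 : tenRow 9 3 = true := by decide +kernel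

theorem ten_row_9_4 : tenRow 9 4 = true := by decide +kernel

theorem ten_row_9_5 : tenRow 9 5 = true := by decide +kernel

theorem ten_row_9_6 : tenRow 9 6 = true := by decide +kernel

theorem ten_row_9_7 : tenRow 9 7 = true := by decide +kernel

theorem ten_row_9_8 : tenRow 9 8 = true := by decide +kernel

theorem ten_row_9_9 : tenRow 9 9 = true := by decide +kernel

theorem ten_ok9 : tenCheck 9 = true :=
  tenCheck_of_rows ten_row_9_0 ten_row_9_1 ten_row_9_2 ten_row_9_3 ten_row_9_4
    ten_row_9_5 ten_row_9_6 ten_row_9_7 ten_row_9_8 ten_row_9_9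

theorem ten_row_10_0 : tenRow 10 0 = true := by decide +kernel

theorem ten_row_10_1 : tenRow 10 1 = true := by decide +kernel

theorem ten_row_10_2 : tenRow 10 2 = true := by decide +kernel

theorem ten_row_10_3 : tenRow 10 3 = true := by decide +kernel

theorem ten_row_10_4 : tenRow 10 4 = true := by decide +kernel

theorem ten_row_10_5 : tenRow 10 5 = true := by decide +kernel

theorem ten_row_10_6 : tenRow 10 6 = true := by decide +kernel

theorem ten_row_10_7 : tenRow 10 7 = true := by decide +kernel

theorem ten_row_10_8 : tenRow 10 8 = true := by decide +kernel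

theorem ten_row_10_9 : tenRow 10 9 = true := by decide +kernel

theorem ten_ok10 : tenCheck 10 = true :=
  tenCheck_of_rows ten_row_10_0 ten_row_10_1 ten_row_10_2 ten_row_10_3 ten_row_10_4
    ten_row_10_5 ten_row_10_6 ten_row_10_7 ten_row_10_8 ten_row_10_9

end Pool.Agent.Q136.KRK
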