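import Pool.Agent.Q136.KRK.TenA
import Pool.Agent.Q136.KRK.TenB

/-!
The board with 10 files and 10 ranks: Black is safe.
-/

namespace Pool.Agent.Q136.KRK

/-- Black is safe on the board with 10 files and 10 ranks. -/
theorem not_wins_ten : ¬ Wins ⟨10, 10⟩ start := by
  have h : ∀ u, 1 ≤ u → u ≤ 10 →
      chkAll 10 10 3 true (tab tenW 10 3) (tab tenB 10 3) u = true := by
    intro u h1 h2
    interval_cases u
    · exact ten_ok1
    · exact ten_ok2
    · exact ten_ok3
    · exact ten_ok4
    · exact ten_ok5
    · exact ten_ok6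
    · exact ten_ok7
    · exact ten_ok8
    · exact ten_ok9
    · exact ten_ok10
  have hp : Inv 10 10 3 true (tab tenW 10 3) start := by
    refine ⟨?_, ?_, ?_, ?_, ?_, ?_⟩
    · rw [on_bd]; decide
    · rw [on_bd]; decide
    · decide
    · unfold Adj; decide
    · decide
    · decide +kernel
  have := not_wins (by norm_num) (by norm_num) h hp
  exact this

end Pool.Agent.Q136.KRK
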