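import Pool.Agent.Q136.KRK.Tables

/-!
The board with 10 files and 10 ranks: first part of the check.
-/

namespace Pool.Agent.Q136.KRK

theorem ten_row_1_0 : tenRow 1 0 = true := by decide +kernel

theorem ten_row_1_1 : tenRow 1 1 = true := by decide +kernel

theorem ten_row_1_2 : tenRow 1 2 = true := by decide +kernel

theorem ten_row_1_3 : tenRow 1 3 = true := by decide +kernel

theorem ten_row_1_4 : tenRow 1 4 = true := by decide +kernel

theorem ten_row_1_5 : tenRow 1 5 = true := by decide +kernel

theorem ten_row_1_6 : tenRow 1 6 = true := by decide +kernel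

theorem ten_row_1_7 : tenRow 1 7 = true := by decide +kernel

theorem ten_row_1_8 : tenRow 1 8 = true := by decide +kernel

theorem ten_row_1_9 : tenRow 1 9 = true := by decide +kernel

theorem ten_ok1 : tenCheck 1 = true :=
  tenCheck_of_rows ten_row_1_0 ten_row_1_1 ten_row_1_2 ten_row_1_3 ten_row_1_4
    ten_row_1_5 ten_row_1_6 ten_row_1_7 ten_row_1_8 ten_row_1_9

theorem ten_row_2_0 : tenRow 2 0 = true := by decide +kernel

theorem ten_row_2_1 : tenRow 2 1 = true := by decide +kernel

theorem ten_row_2_2 : tenRow 2 2 = true := by decide +kernel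

theorem ten_row_2_3 : tenRow 2 3 = true := by decide +kernel

theorem ten_row_2_4 : tenRow 2 4 = true := by decide +kernel

theorem ten_row_2_5 : tenRow 2 5 = true := by decide +kernel

theorem ten_row_2_6 : tenRow 2 6 = true := by decide +kernel

theorem ten_row_2_7 : tenRow 2 7 = true := by decide +kernel

theorem ten_row_2_8 : tenRow 2 8 = true := by decide +kernel

theorem ten_row_2_9 : tenRow 2 9 = true := by decide +kernel

theorem ten_ok2 : tenCheck 2 = true :=
  tenCheck_of_rows ten_row_2_0 ten_row_2_1 ten_row_2_2 ten_row_2_3 ten_row_2_4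
    ten_row_2_5 ten_row_2_6 ten_row_2_7 ten_row_2_8 ten_row_2_9

theorem ten_row_3_0 : tenRow 3 0 = true := by decide +kernel

theorem ten_row_3_1 : tenRow 3 1 = true := by decide +kernel

theorem ten_row_3_2 : tenRow 3 2 = true := by decide +kernel

theorem ten_row_3_3 : tenRow 3 3 = true := by decide +kernel

theorem ten_row_3_4 : tenRow 3 4 = true := by decide +kernel

theorem ten_row_3_5 : tenRow 3 5 = true := by decide +kernel

theorem ten_row_3_6 : tenRow 3 6 = true := by decide +kernel

theorem ten_row_3_7 : tenRow 3 7 = true := by decide +kernel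

theorem ten_row_3_8 : tenRow 3 8 = true := by decide +kernel

theorem ten_row_3_9 : tenRow 3 9 = true := by decide +kernel

theorem ten_ok3 : tenCheck 3 = true :=
  tenCheck_of_rows ten_row_3_0 ten_row_3_1 ten_row_3_2 ten_row_3_3 ten_row_3_4
    ten_row_3_5 ten_row_3_6 ten_row_3_7 ten_row_3_8 ten_row_3_9

theorem ten_row_4_0 : tenRow 4 0 = true := by decide +kernel

theorem ten_row_4_1 : tenRow 4 1 = true := by decide +kernel

theorem ten_row_4_2 : tenRow 4 2 = true := by decide +kernel

theorem ten_row_4_3 : tenRow 4 3 = true := by decide +kernel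

theorem ten_row_4_4 : tenRow 4 4 = true := by decide +kernel

theorem ten_row_4_5 : tenRow 4 5 = true := by decide +kernel

theorem ten_row_4_6 : tenRow 4 6 = true := by decide +kernel

theorem ten_row_4_7 : tenRow 4 7 = true := by decide +kernel

theorem ten_row_4_8 : tenRow 4 8 = true := by decide +kernel

theorem ten_row_4_9 : tenRow 4 9 = true := by decide +kernel

theorem ten_ok4 : tenCheck 4 = true :=
  tenCheck_of_rows ten_row_4_0 ten_row_4_1 ten_row_4_2 ten_row_4_3 ten_row_4_4
    ten_row_4_5 ten_row_4_6 ten_row_4_7 ten_row_4_8 ten_row_4_9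

theorem ten_row_5_0 : tenRow 5 0 = true := by decide +kernel

theorem ten_row_5_1 : tenRow 5 1 = true := by decide +kernel

theorem ten_row_5_2 : tenRow 5 2 = true := by decide +kernel

theorem ten_row_5_3 : tenRow 5 3 = true := by decide +kernel

theorem ten_row_5_4 : tenRow 5 4 = true := by decide +kernel

theorem ten_row_5_5 : tenRow 5 5 = true := by decide +kernel

theorem ten_row_5_6 : tenRow 5 6 = true := by decide +kernel

theorem ten_row_5_7 : tenRow 5 7 = true := by decide +kernel

theorem ten_row_5_8 : tenRow 5 8 = true := by decide +kernel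

theorem ten_row_5_9 : tenRow 5 9 = true := by decide +kernel

theorem ten_ok5 : tenCheck 5 = true :=
  tenCheck_of_rows ten_row_5_0 ten_row_5_1 ten_row_5_2 ten_row_5_3 ten_row_5_4
    ten_row_5_5 ten_row_5_6 ten_row_5_7 ten_row_5_8 ten_row_5_9

end Pool.Agent.Q136.KRK
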