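import Pool.Agent.Q136.KRK.Safe

/-!
A checker for a forced mate on the board with 9 files and 11 ranks: a list of positions, each with
the depth, the move of White and pointers to the positions after the replies.
-/

namespace Pool.Agent.Q136.KRK

/-- Hexadecimal digit number `k` (`P = 16 ^ k`). -/
def dg (E P : ℕ) : ℕ := Nat.mod (Nat.div E P) 16

/-- The position coded by a number. -/
def posOf (E : ℕ) : Pos :=
  ⟨(dg E 1, dg E 16), (dg E 256, dg E 4096), (dg E 65536, dg E 1048576)⟩

/-- The depth stored in an entry. -/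
def dep (E : ℕ) : ℕ := Nat.mod (Nat.div E 16777216) 64

/-- Squares that are equal or touch. -/
def near (ax ay bx yy : ℕ) : Bool :=
  Nat.ble ax (Nat.succ bx) && (Nat.ble bx (Nat.succ ax) &&
    (Nat.ble ay (Nat.succ yy) && Nat.ble yy (Nat.succ ay)))

/-- `c` strictly between `a` and `b` (numbers). -/
def btw1 (a c b : ℕ) : Bool :=
  (Nat.ble (Nat.succ a) c && Nat.ble (Nat.succ c) b) ||
  (Nat.ble (Nat.succ b) c && Nat.ble (Nat.succ c) a)

/-- `c` strictly between `a` and `b` (squares). -/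
def btw (ax ay cx cy bx yy : ℕ) : Bool :=
  (Nat.beq ax bx && (Nat.beq cx ax && btw1 ay cy yy)) ||
  (Nat.beq ay yy && (Nat.beq cy ay && btw1 ax cx bx))

/-- The rook attacks the square. -/
def att (kx ky rx ry sx sy : ℕ) : Bool :=
  !(Nat.beq sx rx && Nat.beq sy ry) && ((Nat.beq sx rx || Nat.beq sy ry) &&
    !(btw rx ry kx ky sx sy))

/-- The move of White is legal on the board with 9 files and 11 ranks. -/
def legal (kx ky rx ry bx yy nkx nky nrx nry : ℕ) : Bool :=
  (Nat.beq nrx rx && Nat.beq nry ry && (near kx ky nkx nky &&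
    (!(Nat.beq kx nkx && Nat.beq ky nky) && (Nat.ble 1 nkx && Nat.ble 1 nky && (Nat.ble nkx 9 &&
      Nat.ble nky 11) && (!(Nat.beq nkx rx && Nat.beq nky ry) && !(near nkx nky bx yy)))))) ||
  (Nat.beq nkx kx && Nat.beq nky ky && (!(Nat.beq nrx rx && Nat.beq nry ry) &&
    ((Nat.beq nrx rx || Nat.beq nry ry) && ((Nat.ble 1 nrx && Nat.ble 1 nry && (Nat.ble nrx 9 &&
      Nat.ble nry 11)) && (!(Nat.beq nrx kx && Nat.beq nry ky) &&
      (!(Nat.beq nrx bx && Nat.beq nry yy) && (!(btw rx ry kx ky nrx nry) &&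
        !(btw rx ry bx yy nrx nry))))))))

/-- The Black king may step to the square with offset `(i - 1, j - 1)`. -/
def can (bx yy nkx nky nrx nry i j : ℕ) : Bool :=
  !(Nat.beq i 1 && Nat.beq j 1) && (Nat.ble 2 (Nat.add bx i) && (Nat.ble 2 (Nat.add yy j) &&
    (!(near nkx nky (Nat.pred (Nat.add bx i)) (Nat.pred (Nat.add yy j))) &&
      !(att nkx nky nrx nry (Nat.pred (Nat.add bx i)) (Nat.pred (Nat.add yy j))))))

/-- Check of the pointer for the reply with offset `(i - 1, j - 1)`. -/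
def reply (ent : ℕ → ℕ) (n E bx yy nkx nky nrx nry i j : ℕ) (p : ℕ) : Bool :=
  !(can bx yy nkx nky nrx nry i j) ||
  (!(Nat.beq (Nat.pred (Nat.add bx i)) nrx && Nat.beq (Nat.pred (Nat.add yy j)) nry) &&
    (Nat.ble (Nat.succ p) n &&
    (Nat.ble (Nat.succ (dep (ent p))) (dep E) &&
      Nat.beq (Nat.mod (ent p) 16777216)
        (Nat.add (Nat.mod (Nat.div E 4294967296) 65536)
          (Nat.add (Nat.mul 65536 (Nat.pred (Nat.add bx i)))
            (Nat.mul 1048576 (Nat.pred (Nat.add yy j))))))))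

/-- Check of one entry, with the fields already extracted. -/
def chkE' (ent : ℕ → ℕ) (n E kx ky rx ry bx yy nkx nky nrx nry : ℕ) : Bool :=
  legal kx ky rx ry bx yy nkx nky nrx nry &&
  (Nat.ble 1 bx && (Nat.ble 1 yy && (Nat.ble bx 8 && (Nat.ble yy 10 &&
  ((att nkx nky nrx nry bx yy ||
      (can bx yy nkx nky nrx nry 0 0 || can bx yy nkx nky nrx nry 0 1 ||
       can bx yy nkx nky nrx nry 0 2 || can bx yy nkx nky nrx nry 1 0 ||
       can bx yy nkx nky nrx nry 1 2 || can bx yy nkx nky nrx nry 2 0 ||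
       can bx yy nkx nky nrx nry 2 1 || can bx yy nkx nky nrx nry 2 2)) &&
  (Nat.ble 1 (dep E) &&
  (reply ent n E bx yy nkx nky nrx nry 0 0 (Nat.mod (Nat.div E (2 ^ 48)) 16384) &&
  (reply ent n E bx yy nkx nky nrx nry 0 1 (Nat.mod (Nat.div E (2 ^ 62)) 16384) &&
  (reply ent n E bx yy nkx nky nrx nry 0 2 (Nat.mod (Nat.div E (2 ^ 76)) 16384) &&
  (reply ent n E bx yy nkx nky nrx nry 1 0 (Nat.mod (Nat.div E (2 ^ 90)) 16384) &&
  (reply ent n E bx yy nkx nky nrx nry 1 2 (Nat.mod (Nat.div E (2 ^ 104)) 16384) &&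
  (reply ent n E bx yy nkx nky nrx nry 2 0 (Nat.mod (Nat.div E (2 ^ 118)) 16384) &&
  (reply ent n E bx yy nkx nky nrx nry 2 1 (Nat.mod (Nat.div E (2 ^ 132)) 16384) &&
   reply ent n E bx yy nkx nky nrx nry 2 2 (Nat.mod (Nat.div E (2 ^ 146)) 16384))))))))))))))

/-- Check of one entry. -/
def chkE (ent : ℕ → ℕ) (n i : ℕ) : Bool :=
  chkE' ent n (ent i) (dg (ent i) 1) (dg (ent i) 16) (dg (ent i) 256) (dg (ent i) 4096)
    (dg (ent i) 65536) (dg (ent i) 1048576) (dg (ent i) 4294967296) (dg (ent i) 68719476736)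
    (dg (ent i) 1099511627776) (dg (ent i) 17592186044416)

theorem near_iff {a b : Sq} : near a.1 a.2 b.1 b.2 = true ↔ a = b ∨ Adj a b := by
  unfold near Adj
  simp only [Bool.and_eq_true, Nat.ble_eq, Nat.succ_eq_add_one]
  constructor
  · rintro ⟨h1, h2, h3, h4⟩
    by_cases h : a = b
    · exact Or.inl h
    · exact Or.inr ⟨h, h1, h2, h3, h4⟩
  · rintro (rfl | ⟨_, h1, h2, h3, h4⟩)
    · omega
    · exact ⟨h1, h2, h3, h4⟩

theorem btw_iff {a c b : Sq} : btw a.1 a.2 c.1 c.2 b.1 b.2 = true ↔ Betw a c b := by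
  unfold btw btw1 Betw
  simp only [Bool.and_eq_true, Bool.or_eq_true, Nat.beq_eq, Nat.ble_eq, Nat.succ_le_iff]

theorem sq_eq_iff {a b : Sq} : (Nat.beq a.1 b.1 && Nat.beq a.2 b.2) = true ↔ a = b := by
  simp only [Bool.and_eq_true, Nat.beq_eq, Prod.ext_iff]

theorem att_iff {k r s : Sq} : att k.1 k.2 r.1 r.2 s.1 s.2 = true ↔ RookAtt k r s := by
  unfold att RookAtt
  rw [Bool.and_eq_true, Bool.and_eq_true, Bool.not_eq_true', Bool.not_eq_true',
    ← Bool.not_eq_true, ← Bool.not_eq_true, sq_eq_iff, btw_iff, Bool.or_eq_true, Nat.beq_eq,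
    Nat.beq_eq]

/-- The board with 9 files and 11 ranks. -/
def bd911 : Board := ⟨9, 11⟩

theorem on911 {s : Sq} : bd911.On s ↔ 1 ≤ s.1 ∧ 1 ≤ s.2 ∧ s.1 ≤ 9 ∧ s.2 ≤ 11 := by
  unfold Board.On bd911
  simp only
  have h1 : ((s.1 : ℕ∞) ≤ 9) ↔ s.1 ≤ 9 := by exact_mod_cast Iff.rfl
  have h2 : ((s.2 : ℕ∞) ≤ 11) ↔ s.2 ≤ 11 := by exact_mod_cast Iff.rfl
  rw [h1, h2]

theorem and2 {a b : Bool} (h : (a && b) = true) : a = true ∧ b = true := by
  simpa using h

theorem not_imp {a : Bool} {P : Prop} (hP : a = true ↔ P) (h : (!a) = true) : ¬ P := by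
  rw [← hP]; simpa using h

theorem legal_imp {k r b nk nr : Sq}
    (h : legal k.1 k.2 r.1 r.2 b.1 b.2 nk.1 nk.2 nr.1 nr.2 = true) :
    WMove bd911 ⟨k, r, b⟩ ⟨nk, nr, b⟩ := by
  unfold legal at h
  rw [Bool.or_eq_true] at h
  refine ⟨rfl, ?_⟩
  rcases h with h | h
  · left
    obtain ⟨h1, h⟩ := and2 h
    obtain ⟨h2, h⟩ := and2 h
    obtain ⟨h3, h⟩ := and2 h
    obtain ⟨h4, h⟩ := and2 h
    obtain ⟨h8, h9⟩ := and2 h
    obtain ⟨h4, h6⟩ := and2 h4
    obtain ⟨h4, h5⟩ := and2 h4
    obtain ⟨h6, h7⟩ := and2 h6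
    rw [Nat.ble_eq] at h4 h5 h6 h7
    have h9' := not_imp near_iff h9
    exact ⟨sq_eq_iff.1 h1, (near_iff.1 h2).resolve_left (not_imp sq_eq_iff h3),
      on911.2 ⟨h4, h5, h6, h7⟩, not_imp sq_eq_iff h8, fun h => h9' (Or.inl h),
      fun h => h9' (Or.inr h)⟩
  · right
    obtain ⟨h1, h⟩ := and2 h
    obtain ⟨h2, h⟩ := and2 h
    obtain ⟨h3, h⟩ := and2 h
    obtain ⟨h4, h⟩ := and2 h
    obtain ⟨h8, h⟩ := and2 h
    obtain ⟨h9, h⟩ := and2 h
    obtain ⟨h10, h11⟩ := and2 h
    obtain ⟨h4, h6⟩ := and2 h4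
    obtain ⟨h4, h5⟩ := and2 h4
    obtain ⟨h6, h7⟩ := and2 h6
    rw [Nat.ble_eq] at h4 h5 h6 h7
    rw [Bool.or_eq_true, Nat.beq_eq, Nat.beq_eq] at h3
    exact ⟨sq_eq_iff.1 h1, not_imp sq_eq_iff h2, h3, on911.2 ⟨h4, h5, h6, h7⟩,
      not_imp sq_eq_iff h8, not_imp sq_eq_iff h9, not_imp btw_iff h10, not_imp btw_iff h11⟩

theorem can_iff {b nk nr s : Sq} {i j : ℕ} (h1 : s.1 + 1 = b.1 + i) (h2 : s.2 + 1 = b.2 + j)
    (hi : i ≤ 2) (hj : j ≤ 2) (hb1 : b.1 ≤ 8) (hb2 : b.2 ≤ 10) :
    can b.1 b.2 nk.1 nk.2 nr.1 nr.2 i j = true ↔ BMove bd911 ⟨nk, nr, b⟩ s := by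
  have e1 : Nat.pred (Nat.add b.1 i) = s.1 := by
    simp only [Nat.add_eq, Nat.pred_eq_sub_one]; omega
  have e2 : Nat.pred (Nat.add b.2 j) = s.2 := by
    simp only [Nat.add_eq, Nat.pred_eq_sub_one]; omega
  unfold can
  rw [e1, e2]
  rw [Bool.and_eq_true, Bool.not_eq_true', ← Bool.not_eq_true, Bool.and_eq_true, Nat.beq_eq,
    Nat.beq_eq, Bool.and_eq_true, Nat.ble_eq, Bool.and_eq_true, Nat.ble_eq, Bool.and_eq_true,
    Bool.not_eq_true', ← Bool.not_eq_true, near_iff, Bool.not_eq_true', ← Bool.not_eq_true,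
    att_iff]
  simp only [Nat.add_eq]
  unfold BMove
  simp only
  rw [on911]
  constructor
  · rintro ⟨k1, k2, k3, k4, k5⟩
    refine ⟨⟨?_, by omega, by omega, by omega, by omega⟩, Or.inl ⟨⟨by omega, by omega, by omega,
      by omega⟩, fun h => k4 (Or.inl h.symm), fun h => k4 (Or.inr h), k5⟩⟩
    rintro hbs
    rw [← hbs] at h1 h2
    omega
  · rintro ⟨⟨k0, _⟩, ⟨⟨k1, k2, _⟩, k5, k6, k7⟩ | ⟨k1, k2, k3⟩⟩
    · refine ⟨?_, by omega, by omega, ?_, k7⟩
      · rintro ⟨rfl, rfl⟩
        exact k0 (Prod.ext (by omega) (by omega))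
      · rintro (h | h)
        · exact k5 h.symm
        · exact k6 h
    · exact absurd ⟨k1, k2, by omega, by omega⟩ k3

theorem bmove_dir {b nk nr s : Sq} (h : BMove bd911 ⟨nk, nr, b⟩ s) :
    ∃ i j, i ≤ 2 ∧ j ≤ 2 ∧ s.1 + 1 = b.1 + i ∧ s.2 + 1 = b.2 + j ∧ ¬ (i = 1 ∧ j = 1) := by
  obtain ⟨⟨h0, h1, h2, h3, h4⟩, h5⟩ := h
  simp only at h0 h1 h2 h3 h4
  refine ⟨s.1 + 1 - b.1, s.2 + 1 - b.2, by omega, by omega, by omega, by omega, ?_⟩
  rintro ⟨k1, k2⟩
  exact h0 (Prod.ext (by omega) (by omega))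

theorem posOf_eq {T X x y : ℕ} (hx : x < 16)
    (h : T % 16777216 = X % 65536 + (65536 * x + 1048576 * y)) :
    posOf T = ⟨(dg X 1, dg X 16), (dg X 256, dg X 4096), (x, y)⟩ := by
  unfold posOf dg
  have e : ∀ a b : ℕ, Nat.mod a b = a % b := fun _ _ => rfl
  have e' : ∀ a b : ℕ, Nat.div a b = a / b := fun _ _ => rfl
  simp only [e, e', Pos.mk.injEq, Prod.mk.injEq]
  omega

theorem dg_shift {E P Q : ℕ} : dg (E / P) Q = dg E (P * Q) := by
  unfold dg
  have e' : ∀ a b : ℕ, Nat.div a b = a / b := fun _ _ => rfl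
  rw [e', e', Nat.div_div_eq_div_mul]

/-- Soundness of the check. -/
theorem winsIn_of_chk {ent : ℕ → ℕ} {n : ℕ} (h : ∀ i < n, chkE ent n i = true) :
    ∀ D, ∀ i < n, dep (ent i) ≤ D → WinsIn bd911 D (posOf (ent i)) := by
  intro D
  induction D with
  | zero =>
      intro i hi hd
      exfalso
      have h1 := h i hi
      unfold chkE chkE' at h1
      simp only [Bool.and_eq_true, Nat.ble_eq] at h1
      omega
  | succ D ih =>
      intro i hi hd
      have h1 := h i hi
      unfold chkE at h1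
      generalize hE : ent i = E at h1 hd ⊢
      unfold chkE' at h1
      simp only [Bool.and_eq_true, Nat.ble_eq] at h1
      obtain ⟨l1, l2, l3, l4, l5, l6, l7, r1, r2, r3, r4, r5, r6, r7, r8⟩ := h1
      have hmove := legal_imp (k := (dg E 1, dg E 16)) (r := (dg E 256, dg E 4096))
        (b := (dg E 65536, dg E 1048576)) (nk := (dg E 4294967296, dg E 68719476736))
        (nr := (dg E 1099511627776, dg E 17592186044416)) l1
      refine ⟨⟨(dg E 4294967296, dg E 68719476736), (dg E 1099511627776, dg E 17592186044416),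
        (dg E 65536, dg E 1048576)⟩, hmove, ?_⟩
      -- the replies
      have key : ∀ (i j p : ℕ), i ≤ 2 → j ≤ 2 →
          reply ent n E (dg E 65536) (dg E 1048576) (dg E 4294967296) (dg E 68719476736)
            (dg E 1099511627776) (dg E 17592186044416) i j p = true →
          ∀ s : Sq, s.1 + 1 = dg E 65536 + i → s.2 + 1 = dg E 1048576 + j →
          BMove bd911 ⟨(dg E 4294967296, dg E 68719476736),
            (dg E 1099511627776, dg E 17592186044416), (dg E 65536, dg E 1048576)⟩ s →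
          bd911.On s ∧ s ≠ (dg E 1099511627776, dg E 17592186044416) ∧
          WinsIn bd911 D ⟨(dg E 4294967296, dg E 68719476736),
            (dg E 1099511627776, dg E 17592186044416), s⟩ := by
        intro i j p hi2 hj2 hr s hs1 hs2 hb
        have hcan := (can_iff (b := (dg E 65536, dg E 1048576))
          (nk := (dg E 4294967296, dg E 68719476736))
          (nr := (dg E 1099511627776, dg E 17592186044416)) hs1 hs2 hi2 hj2 l4 l5).2 hb
        simp only at hcan
        unfold reply at hr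
        have e1 : Nat.pred (Nat.add (dg E 65536) i) = s.1 := by
          simp only [Nat.add_eq, Nat.pred_eq_sub_one]; omega
        have e2 : Nat.pred (Nat.add (dg E 1048576) j) = s.2 := by
          simp only [Nat.add_eq, Nat.pred_eq_sub_one]; omega
        rw [hcan, e1, e2] at hr
        simp only [Bool.not_true, Bool.false_or] at hr
        rw [Bool.and_eq_true, Bool.and_eq_true, Bool.and_eq_true, Nat.ble_eq, Nat.ble_eq,
          Nat.beq_eq] at hr
        obtain ⟨q1, q2, q3, q4⟩ := hr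
        have hne : s ≠ (dg E 1099511627776, dg E 17592186044416) := by
          rintro rfl
          simp at q1
        have hon : bd911.On s := by
          rcases hb.2 with k | k
          · exact k.1
          · exfalso
            apply k.2.2
            rw [on911]
            exact ⟨k.1, k.2.1, by omega, by omega⟩
        refine ⟨hon, hne, ?_⟩
        have hon' := on911.1 hon
        have hp := posOf_eq (T := ent p) (X := E / 4294967296) (x := s.1) (y := s.2) (by omega)
          q4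
        have := ih p q2 (by omega)
        rw [hp] at this
        rw [dg_shift, dg_shift, dg_shift, dg_shift] at this
        exact this
      by_cases hc : ∃ s, BMove bd911 ⟨(dg E 4294967296, dg E 68719476736),
          (dg E 1099511627776, dg E 17592186044416), (dg E 65536, dg E 1048576)⟩ s
      · right
        refine ⟨hc, fun s hs => ?_⟩
        obtain ⟨i, j, hi2, hj2, hs1, hs2, hne⟩ := bmove_dir hs
        simp only at hs1 hs2
        interval_cases i <;> interval_cases j
        · exact key 0 0 _ (by norm_num) (by norm_num) r1 s hs1 hs2 hs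
        · exact key 0 1 _ (by norm_num) (by norm_num) r2 s hs1 hs2 hs
        · exact key 0 2 _ (by norm_num) (by norm_num) r3 s hs1 hs2 hs
        · exact key 1 0 _ (by norm_num) (by norm_num) r4 s hs1 hs2 hs
        · exact absurd ⟨rfl, rfl⟩ hne
        · exact key 1 2 _ (by norm_num) (by norm_num) r5 s hs1 hs2 hs
        · exact key 2 0 _ (by norm_num) (by norm_num) r6 s hs1 hs2 hs
        · exact key 2 1 _ (by norm_num) (by norm_num) r7 s hs1 hs2 hs
        · exact key 2 2 _ (by norm_num) (by norm_num) r8 s hs1 hs2 hs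
      · left
        push Not at hc
        refine ⟨?_, hc⟩
        rw [Bool.or_eq_true] at l6
        rcases l6 with l6 | l6
        · exact (att_iff (k := (dg E 4294967296, dg E 68719476736))
            (r := (dg E 1099511627776, dg E 17592186044416))
            (s := (dg E 65536, dg E 1048576))).1 l6
        · exfalso
          have hh : ∀ i j, i ≤ 2 → j ≤ 2 → can (dg E 65536) (dg E 1048576) (dg E 4294967296)
              (dg E 68719476736) (dg E 1099511627776) (dg E 17592186044416) i j ≠ true := by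
            intro i j hi2 hj2 hcan
            have hcan' := hcan
            unfold can at hcan'
            simp only [Bool.and_eq_true, Nat.ble_eq, Nat.add_eq] at hcan'
            exact hc (dg E 65536 + i - 1, dg E 1048576 + j - 1)
              ((can_iff (b := (dg E 65536, dg E 1048576))
                (nk := (dg E 4294967296, dg E 68719476736))
                (nr := (dg E 1099511627776, dg E 17592186044416))
                (s := (dg E 65536 + i - 1, dg E 1048576 + j - 1))
                (by simp only; omega) (by simp only; omega) hi2 hj2 l4 l5).1 hcan)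
          simp only [Bool.or_eq_true] at l6
          rcases l6 with ((((((l6 | l6) | l6) | l6) | l6) | l6) | l6) | l6
          · exact hh 0 0 (by norm_num) (by norm_num) l6
          · exact hh 0 1 (by norm_num) (by norm_num) l6
          · exact hh 0 2 (by norm_num) (by norm_num) l6
          · exact hh 1 0 (by norm_num) (by norm_num) l6
          · exact hh 1 2 (by norm_num) (by norm_num) l6
          · exact hh 2 0 (by norm_num) (by norm_num) l6
          · exact hh 2 1 (by norm_num) (by norm_num) l6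
          · exact hh 2 2 (by norm_num) (by norm_num) l6

end Pool.Agent.Q136.KRK
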