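import Pool.Agent.Q136.KRK.Data

/-!
Part 1 of the check of the forced mate.
-/

namespace Pool.Agent.Q136.KRK

theorem win_block0 : allN 400 (fun i => chkE ent winN (Nat.add 0 i)) = true := by
  decide +kernel

theorem win_block1 : allN 400 (fun i => chkE ent winN (Nat.add 400 i)) = true := by
  decide +kernel

theorem win_block2 : allN 400 (fun i => chkE ent winN (Nat.add 800 i)) = true := by
  decide +kernel

theorem win_block3 : allN 400 (fun i => chkE ent winN (Nat.add 1200 i)) = true := by
  decide +kernel

theorem win_block4 : allN 400 (fun i => chkE ent winN (Nat.add 1600 i)) = true := by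
  decide +kernel

theorem win_block5 : allN 400 (fun i => chkE ent winN (Nat.add 2000 i)) = true := by
  decide +kernel

theorem win_block6 : allN 400 (fun i => chkE ent winN (Nat.add 2400 i)) = true := by
  decide +kernel

theorem win_block7 : allN 400 (fun i => chkE ent winN (Nat.add 2800 i)) = true := by
  decide +kernel

theorem win_block8 : allN 400 (fun i => chkE ent winN (Nat.add 3200 i)) = true := by
  decide +kernel

end Pool.Agent.Q136.KRK
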